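import Pool.Agent.Helper44.KS.GoalsC

/-!
# Packet KS-FAR

Elements whose mean position is farther than `S` never enter a fixed window.
-/

namespace Pool.Agent.Helper5.KS

open MeasureTheory Filter Topology Set
open Pool.Agent.Helper44.KS

noncomputable section

theorem far_aux {c : ℝ} (Z : KSys c) {K K' : ℝ} (hK : 0 < K) (hK' : 0 < K')
    (h1 : ∀ p : Fin Z.n, Z.μ.real {d | |Z.a p| / 2 ≤ |Z.Y d p|} ≤ K / (1 + |Z.a p|) ^ 3)
    (h2 : ∀ J : ℝ, 0 ≤ J →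
      ∑ p ∈ Finset.univ.filter (fun p => J ≤ |Z.a p|), 1 / (1 + |Z.a p|) ^ 2 ≤
        K' * Z.S / (1 + J)) {C : ℝ} (hC : 2 * C ≤ Z.S) :
    Z.μ.real {d | ∃ p, Z.S < |Z.a p| ∧ |d p| ≤ C} ≤ K * K' / (1 + Z.S) := by
  have hS : 1 ≤ Z.S := Z.one_le
  set F : Finset (Fin Z.n) := Finset.univ.filter (fun p => Z.S ≤ |Z.a p|) with hF
  have hsub : {d : Fin Z.n → ℝ | ∃ p, Z.S < |Z.a p| ∧ |d p| ≤ C} ⊆
      ⋃ p ∈ F, {d | |Z.a p| / 2 ≤ |Z.Y d p|} := by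
    rintro d ⟨p, hp, hd⟩
    refine Set.mem_iUnion₂.mpr ⟨p, ?_, ?_⟩
    · rw [hF]; simp only [Finset.mem_filter, Finset.mem_univ, true_and]; exact hp.le
    · show |Z.a p| / 2 ≤ |d p - Z.a p|
      have h3 : |Z.a p| - |d p| ≤ |Z.a p - d p| := abs_sub_abs_le_abs_sub _ _
      rw [abs_sub_comm]
      linarith
  have h4 : Z.μ.real {d | ∃ p, Z.S < |Z.a p| ∧ |d p| ≤ C} ≤
      ∑ p ∈ F, Z.μ.real {d | |Z.a p| / 2 ≤ |Z.Y d p|} :=
    (measureReal_mono hsub (measure_ne_top _ _)).trans (measureReal_biUnion_finset_le _ _)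
  have h5 : ∑ p ∈ F, Z.μ.real {d | |Z.a p| / 2 ≤ |Z.Y d p|} ≤
      ∑ p ∈ F, (K / (1 + Z.S)) * (1 / (1 + |Z.a p|) ^ 2) := by
    refine Finset.sum_le_sum fun p hp => (h1 p).trans ?_
    have hp' : Z.S ≤ |Z.a p| := (Finset.mem_filter.mp hp).2
    have ha : 0 ≤ |Z.a p| := abs_nonneg _
    have e : K / (1 + |Z.a p|) ^ 3 = (K / (1 + |Z.a p|)) * (1 / (1 + |Z.a p|) ^ 2) := by
      have : (1 + |Z.a p|) ≠ 0 := by positivity
      field_simp
    rw [e]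
    refine mul_le_mul_of_nonneg_right ?_ (by positivity)
    exact div_le_div_of_nonneg_left hK.le (by linarith) (by linarith)
  rw [← Finset.mul_sum] at h5
  have h6 := h2 Z.S (by linarith)
  have h7 : K' * Z.S / (1 + Z.S) ≤ K' := by
    rw [div_le_iff₀ (by linarith)]
    nlinarith
  have h8 : K / (1 + Z.S) * ∑ p ∈ F, 1 / (1 + |Z.a p|) ^ 2 ≤ K / (1 + Z.S) * K' :=
    mul_le_mul_of_nonneg_left (h6.trans h7) (div_nonneg hK.le (by linarith))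
  calc Z.μ.real {d | ∃ p, Z.S < |Z.a p| ∧ |d p| ≤ C}
      ≤ K / (1 + Z.S) * K' := h4.trans (h5.trans h8)
    _ = K * K' / (1 + Z.S) := by ring

/-- FAR. -/
theorem far (hTLP : S_TLP) (hCEL : S_CEL) : S_FAR := by
  obtain ⟨K, hK, h1⟩ := hTLP
  obtain ⟨K', hK', h2⟩ := hCEL
  intro c Z hS C
  have hlim : Tendsto (fun N => K * K' / (1 + (Z N).S)) atTop (𝓝 0) :=
    (tendsto_atTop_add_const_left _ 1 hS).const_div_atTop (K * K')
  refine tendsto_of_tendsto_of_tendsto_of_le_of_le' tendsto_const_nhds hlim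
    (Eventually.of_forall fun N => measureReal_nonneg) ?_
  filter_upwards [hS.eventually_ge_atTop (2 * C)] with N hN
  exact far_aux (Z N) hK hK' (fun p => h1 c (Z N) p) (fun J hJ => h2 c (Z N) J hJ) hN

end

end Pool.Agent.Helper5.KS
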