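import Pool.Agent.Helper42.KS.Goals

set_option autoImplicit false

namespace Pool.Agent.Helper42.KS.PkME

open MeasureTheory
open scoped ENNReal NNReal

/-- structure of the set of `z` with `γ z` close to an integer -/
lemma struct (γ θ : ℝ) (R : ℕ) (hR : 1 ≤ R) (hθ : 0 ≤ θ) (hθR : 12 * R * θ < 1)
    (Z : Finset ℕ) (hZ : ∀ z ∈ Z, 1 ≤ z ∧ z < 2 * R ∧ near (γ * z) (2 * θ)) (hne : Z.Nonempty) :
    ∃ (z0 : ℕ) (a0 : ℤ), 1 ≤ z0 ∧ z0 * Z.card ≤ 2 * R ∧
      |γ * z0 - a0| * Z.card ≤ 2 * θ := by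
  classical
  have hR' : (1 : ℝ) ≤ R := by exact_mod_cast hR
  -- minimal element
  have hex : ∃ z : ℕ, 1 ≤ z ∧ z < 2 * R ∧ near (γ * z) (2 * θ) := by
    obtain ⟨z, hz⟩ := hne
    exact ⟨z, hZ z hz⟩
  let z0 := Nat.find hex
  obtain ⟨h1, h2, a0, h3⟩ : 1 ≤ z0 ∧ z0 < 2 * R ∧ near (γ * z0) (2 * θ) := Nat.find_spec hex
  have hmin : ∀ z : ℕ, 1 ≤ z → z < 2 * R → near (γ * z) (2 * θ) → z0 ≤ z := by
    intro z p1 p2 p3
    exact Nat.find_min' hex ⟨p1, p2, p3⟩
  have hz0pos : (0 : ℝ) < z0 := by exact_mod_cast h1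
  have hz0R : (z0 : ℝ) < 2 * R := by exact_mod_cast h2
  set η : ℝ := γ * z0 - a0 with hη
  -- every z in Z is a multiple of z0
  have hdvd : ∀ z ∈ Z, z0 ∣ z := by
    intro z hz
    obtain ⟨p1, p2, b, p3⟩ := hZ z hz
    have hzR : (z : ℝ) < 2 * R := by exact_mod_cast p2
    have hzpos : (0 : ℝ) < z := by exact_mod_cast p1
    set g : ℕ := Nat.gcd a0.natAbs z0 with hg
    have hgpos : 0 < g := Nat.gcd_pos_of_pos_right _ h1
    obtain ⟨z', hz'⟩ : g ∣ z0 := Nat.gcd_dvd_right _ _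
    obtain ⟨a', ha'⟩ : (g : ℤ) ∣ a0 := by
      rw [Int.natCast_dvd]; exact Nat.gcd_dvd_left _ _
    have hz'pos : 1 ≤ z' := by
      rcases Nat.eq_zero_or_pos z' with h | h
      · rw [h, mul_zero] at hz'; omega
      · exact h
    have hz'le : z' ≤ z0 := by
      rw [hz']; exact Nat.le_mul_of_pos_left _ hgpos
    have hz'R : (z' : ℝ) ≤ z0 := by exact_mod_cast hz'le
    have hz'p : (0 : ℝ) < z' := by exact_mod_cast hz'pos
    have hgp : (0 : ℝ) < g := by exact_mod_cast hgpos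
    have ez0 : (z0 : ℝ) = g * z' := by exact_mod_cast hz'
    have ea0 : (a0 : ℝ) = g * a' := by exact_mod_cast ha'
    -- γ z' = a' + η / g
    have e1 : γ * z' - a' = η / g := by
      rw [hη, ez0, ea0]; field_simp
    have hcop : IsCoprime a' (z' : ℤ) := by
      rw [Int.isCoprime_iff_gcd_eq_one]
      have hh : Int.gcd a0 (z0 : ℤ) = g := by
        rw [hg]; rfl
      have : g * Int.gcd a' (z' : ℤ) = g := by
        have e2 : Int.gcd (g * a') ((g : ℤ) * (z' : ℤ)) = g * Int.gcd a' (z' : ℤ) := by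
          rw [Int.gcd_mul_left]; simp
        rw [← e2, ← ha']
        have : ((g : ℤ) * (z' : ℤ)) = (z0 : ℤ) := by exact_mod_cast hz'.symm
        rw [this, hh]
      exact Nat.eq_of_mul_eq_mul_left hgpos (by rw [this, mul_one])
    -- z' divides z
    have hkey : |(a' : ℝ) * z - z' * b| < 1 := by
      have e2 : (a' : ℝ) * z - z' * b = z' * (γ * z - b) - z * (η / g) := by
        rw [← e1]; ring
      rw [e2]
      have f1 : |(z' : ℝ) * (γ * z - b)| ≤ 2 * R * (2 * θ) := by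
        rw [abs_mul, abs_of_pos hz'p]
        exact mul_le_mul (by linarith) p3 (abs_nonneg _) (by positivity)
      have f2 : |(z : ℝ) * (η / g)| ≤ 2 * R * (2 * θ) := by
        rw [abs_mul, abs_of_pos hzpos, abs_div, abs_of_pos hgp]
        have hg1 : (1 : ℝ) ≤ g := by exact_mod_cast hgpos
        have : |η| / g ≤ 2 * θ := (div_le_self (abs_nonneg _) hg1).trans h3
        exact mul_le_mul hzR.le this (by positivity) (by positivity)
      calc |(z' : ℝ) * (γ * z - b) - z * (η / g)| ≤ |(z' : ℝ) * (γ * z - b)| + |(z : ℝ) * (η / g)| :=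
            abs_sub _ _
        _ ≤ 2 * R * (2 * θ) + 2 * R * (2 * θ) := add_le_add f1 f2
        _ = 8 * R * θ := by ring
        _ < 1 := by nlinarith [mul_nonneg (by positivity : (0:ℝ) ≤ R) hθ]
    have hzero : a' * (z : ℤ) - (z' : ℤ) * b = 0 := by
      have : |((a' * (z : ℤ) - (z' : ℤ) * b : ℤ) : ℝ)| < 1 := by push_cast; exact hkey
      have h' : |a' * (z : ℤ) - (z' : ℤ) * b| < 1 := by exact_mod_cast this
      exact Int.abs_lt_one_iff.1 h'
    have hd : (z' : ℤ) ∣ a' * (z : ℤ) := ⟨b, by linarith⟩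
    have hd2 : (z' : ℤ) ∣ (z : ℤ) := hcop.symm.dvd_of_dvd_mul_left hd
    have hd3 : z' ∣ z := by exact_mod_cast hd2
    have hz0z' : z0 ≤ z' := by
      refine hmin z' hz'pos (lt_of_le_of_lt hz'le h2) ⟨a', ?_⟩
      rw [e1, abs_div, abs_of_pos hgp]
      have hg1 : (1 : ℝ) ≤ g := by exact_mod_cast hgpos
      exact (div_le_self (abs_nonneg _) hg1).trans h3
    have : z' = z0 := le_antisymm hz'le hz0z'
    rwa [this] at hd3
  -- quotients
  let J : Finset ℕ := Z.image (fun z => z / z0)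
  have hJcard : J.card = Z.card := by
    apply Finset.card_image_of_injOn
    intro x hx y hy hxy
    have ex := Nat.div_mul_cancel (hdvd x hx)
    have ey := Nat.div_mul_cancel (hdvd y hy)
    simp only at hxy
    rw [← ex, ← ey, hxy]
  have hJmem : ∀ j ∈ J, 1 ≤ j ∧ j * z0 < 2 * R ∧ |η| * j ≤ 2 * θ := by
    intro j hj
    obtain ⟨z, hz, rfl⟩ := Finset.mem_image.1 hj
    obtain ⟨p1, p2, b, p3⟩ := hZ z hz
    have ez := Nat.div_mul_cancel (hdvd z hz)
    set j := z / z0 with hjdef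
    have hj1 : 1 ≤ j := by
      rcases Nat.eq_zero_or_pos j with h | h
      · rw [h, zero_mul] at ez; omega
      · exact h
    have hjlt : j * z0 < 2 * R := by rw [ez]; exact p2
    refine ⟨hj1, hjlt, ?_⟩
    have hjR : (j : ℝ) < 2 * R := by
      have : j ≤ j * z0 := Nat.le_mul_of_pos_right _ h1
      exact_mod_cast lt_of_le_of_lt this hjlt
    have ezr : (z : ℝ) = j * z0 := by exact_mod_cast ez.symm
    have hjp : (0 : ℝ) < j := by exact_mod_cast hj1
    have e3 : γ * z = j * a0 + j * η := by rw [ezr, hη]; ring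
    have hjη : |(j : ℝ) * η| ≤ 2 * R * (2 * θ) := by
      rw [abs_mul, abs_of_pos hjp]
      exact mul_le_mul hjR.le h3 (abs_nonneg _) (by positivity)
    have hb : (j : ℤ) * a0 - b = 0 := by
      have : |(((j : ℤ) * a0 - b : ℤ) : ℝ)| < 1 := by
        push_cast
        have e4 : (j : ℝ) * a0 - b = (γ * z - b) - j * η := by rw [e3]; ring
        rw [e4]
        calc |γ * z - b - j * η| ≤ |γ * z - b| + |(j : ℝ) * η| := abs_sub _ _
          _ ≤ 2 * θ + 2 * R * (2 * θ) := add_le_add p3 hjη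
          _ < 1 := by nlinarith [mul_nonneg (by linarith : (0:ℝ) ≤ R - 1) hθ]
      have h' : |(j : ℤ) * a0 - b| < 1 := by exact_mod_cast this
      exact Int.abs_lt_one_iff.1 h'
    have hbr : (b : ℝ) = j * a0 := by
      have : (b : ℤ) = (j : ℤ) * a0 := by linarith
      exact_mod_cast this
    rw [e3, hbr] at p3
    have : |(j : ℝ) * η| ≤ 2 * θ := by
      have e5 : (j : ℝ) * a0 + j * η - j * a0 = j * η := by ring
      rwa [e5] at p3
    rw [abs_mul, abs_of_pos hjp] at this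
    linarith
  -- the largest element of J is at least the cardinality
  have hJne : J.Nonempty := hne.image _
  obtain ⟨p1, p2, p3⟩ := hJmem (J.max' hJne) (J.max'_mem hJne)
  have hle : Z.card ≤ J.max' hJne := by
    rw [← hJcard]
    have : J ⊆ Finset.Icc 1 (J.max' hJne) := by
      intro j hj
      exact Finset.mem_Icc.2 ⟨(hJmem j hj).1, J.le_max' j hj⟩
    have h := Finset.card_le_card this
    simpa using h
  refine ⟨z0, a0, h1, ?_, ?_⟩
  · calc z0 * Z.card ≤ z0 * J.max' hJne := Nat.mul_le_mul_left _ hle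
      _ = J.max' hJne * z0 := mul_comm _ _
      _ ≤ 2 * R := p2.le
  · have hle' : (Z.card : ℝ) ≤ (J.max' hJne : ℝ) := by exact_mod_cast hle
    calc |η| * Z.card ≤ |η| * (J.max' hJne : ℝ) := mul_le_mul_of_nonneg_left hle' (abs_nonneg _)
      _ ≤ 2 * θ := p3

/-- differences -/
lemma diffs (γ c θ : ℝ) (R : ℕ) (L : ℝ) (hL : 1 ≤ L) (Y : Finset ℤ)
    (hY : ∀ y ∈ Y, -(R : ℤ) ≤ y ∧ y < R ∧ near (γ * y + c) θ) (hcard : L < Y.card) :
    ∃ Z : Finset ℕ, Z.Nonempty ∧ (∀ z ∈ Z, 1 ≤ z ∧ z < 2 * R ∧ near (γ * z) (2 * θ)) ∧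
      L / 2 ≤ Z.card := by
  classical
  have hYne : Y.Nonempty := by
    rw [← Finset.card_pos]
    have : (0 : ℝ) < Y.card := by linarith
    exact_mod_cast this
  set y0 := Y.min' hYne with hy0
  have hy0m : y0 ∈ Y := Y.min'_mem hYne
  let Z : Finset ℕ := (Y.erase y0).image (fun y => (y - y0).toNat)
  have hlt : ∀ y ∈ Y.erase y0, y0 < y := by
    intro y hy
    have h1 := Y.min'_le y (Finset.mem_of_mem_erase hy)
    exact lt_of_le_of_ne h1 (Finset.ne_of_mem_erase hy).symm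
  have hZcard : Z.card = (Y.erase y0).card := by
    apply Finset.card_image_of_injOn
    intro x hx y hy hxy
    have h1 := hlt x hx
    have h2 := hlt y hy
    simp only at hxy
    omega
  have hZc : Z.card + 1 = Y.card := by
    rw [hZcard]; exact Finset.card_erase_add_one hy0m
  have hbig : L / 2 ≤ Z.card := by
    have h1 : (Z.card : ℝ) + 1 = Y.card := by exact_mod_cast hZc
    have h2 : (⌊L⌋₊ : ℝ) < Y.card := lt_of_le_of_lt (Nat.floor_le (by linarith)) hcard
    have h3 : ⌊L⌋₊ < Y.card := by exact_mod_cast h2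
    have h4 : ⌊L⌋₊ ≤ Z.card := by omega
    have h5 : L < ⌊L⌋₊ + 1 := Nat.lt_floor_add_one L
    have h6 : 1 ≤ ⌊L⌋₊ := by rw [Nat.one_le_floor_iff]; exact hL
    have h7 : (⌊L⌋₊ : ℝ) ≤ Z.card := by exact_mod_cast h4
    have h8 : (1 : ℝ) ≤ ⌊L⌋₊ := by exact_mod_cast h6
    linarith
  refine ⟨Z, ?_, ?_, hbig⟩
  · rw [← Finset.card_pos]
    have : (0 : ℝ) < Z.card := by linarith
    exact_mod_cast this
  · intro z hz
    obtain ⟨y, hy, rfl⟩ := Finset.mem_image.1 hz
    have h1 := hlt y hy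
    obtain ⟨p1, p2, a, p3⟩ := hY y (Finset.mem_of_mem_erase hy)
    obtain ⟨q1, q2, b, q3⟩ := hY y0 hy0m
    refine ⟨by omega, by omega, a - b, ?_⟩
    have e : (((y - y0).toNat : ℕ) : ℝ) = (y : ℝ) - y0 := by
      have : (((y - y0).toNat : ℕ) : ℤ) = y - y0 := Int.toNat_of_nonneg (by omega)
      exact_mod_cast this
    rw [e]
    have e2 : γ * ((y : ℝ) - y0) - ((a - b : ℤ) : ℝ) = (γ * y + c - a) - (γ * y0 + c - b) := by
      push_cast; ring
    rw [e2]
    calc |γ * y + c - a - (γ * y0 + c - b)| ≤ |γ * y + c - a| + |γ * y0 + c - b| := abs_sub _ _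
      _ ≤ 2 * θ := by linarith

lemma rich_approx (k R : ℕ) (s t α : ℝ) (hk : 3 ≤ k) (hs0 : 0 < s) (hs : s ≤ 1 / 4)
    (hR : 100 ≤ R) (ht0 : 0 ≤ t) (ht1 : t ≤ 1) (h : rich k R s t α) :
    ∃ (q z : ℕ) (a : ℤ), 1 ≤ q ∧ (q : ℝ) ≤ (R : ℝ) ^ s ∧ 1 ≤ z ∧ (z : ℝ) ≤ 4 * (R : ℝ) ^ t ∧
      |k * q * α * z - a| ≤ 4 * (R : ℝ) ^ (-(k : ℝ) + s + t) := by
  classical
  obtain ⟨q, hq1, hq2, c, hc⟩ := h
  have hRpos : (0 : ℝ) < R := by
    have : 0 < R := by omega
    exact_mod_cast this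
  have hR1 : (1 : ℝ) ≤ R := by
    have : 1 ≤ R := by omega
    exact_mod_cast this
  have hR100 : (100 : ℝ) ≤ R := by exact_mod_cast hR
  set θ : ℝ := (R : ℝ) ^ (-((k : ℝ) - 1) + s) with hθ
  have hθpos : 0 < θ := Real.rpow_pos_of_pos hRpos _
  have hk3 : (3 : ℝ) ≤ k := by exact_mod_cast hk
  have hRθ : (R : ℝ) * θ ≤ (R : ℝ) ^ (-(3 / 4) : ℝ) := by
    have : (R : ℝ) * θ = (R : ℝ) ^ (1 + (-((k : ℝ) - 1) + s)) := by
      rw [Real.rpow_add hRpos, Real.rpow_one]
    rw [this]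
    exact Real.rpow_le_rpow_of_exponent_le hR1 (by linarith)
  have h12 : 12 * (R : ℝ) * θ < 1 := by
    have h1 : (R : ℝ) ^ (-(3 / 4) : ℝ) ≤ (100 : ℝ) ^ (-(3 / 4) : ℝ) :=
      Real.rpow_le_rpow_of_nonpos (by norm_num) hR100 (by norm_num)
    have h2 : (100 : ℝ) ^ (-(3 / 4) : ℝ) < 1 / 12 := by
      have e : (100 : ℝ) ^ (-(3 / 4) : ℝ) = 1 / (100 : ℝ) ^ ((3 / 4) : ℝ) := by
        rw [Real.rpow_neg (by norm_num), one_div]
      rw [e]
      apply one_div_lt_one_div_of_lt (by norm_num)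
      have : (12 : ℝ) = ((12 : ℝ) ^ (4 : ℝ)) ^ ((1 / 4) : ℝ) := by
        rw [← Real.rpow_mul (by norm_num)]; norm_num
      rw [this]
      have e2 : (100 : ℝ) ^ ((3 / 4) : ℝ) = ((100 : ℝ) ^ (3 : ℝ)) ^ ((1 / 4) : ℝ) := by
        rw [← Real.rpow_mul (by norm_num)]; norm_num
      rw [e2]
      apply Real.rpow_lt_rpow (by positivity) _ (by norm_num)
      norm_num
    nlinarith
  set L : ℝ := (R : ℝ) ^ (1 - t) with hL
  have hL1 : 1 ≤ L := by
    rw [hL]; exact Real.one_le_rpow hR1 (by linarith)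
  have hY : ∀ y ∈ ((Finset.Ico (-(R : ℤ)) R).filter
      (fun y : ℤ => near (k * q * α * y + c) θ)), -(R : ℤ) ≤ y ∧ y < R ∧
        near ((k * q * α) * y + c) θ := by
    intro y hy
    rw [Finset.mem_filter, Finset.mem_Ico] at hy
    exact ⟨hy.1.1, hy.1.2, hy.2⟩
  obtain ⟨Z, hZne, hZ, hZc⟩ := diffs (k * q * α) c θ R L hL1 _ hY hc
  obtain ⟨z0, a0, g1, g2, g3⟩ := struct (k * q * α) θ R (by omega) hθpos.le h12 Z hZ hZne
  have hLpos : 0 < L := by linarith
  refine ⟨q, z0, a0, hq1, hq2, g1, ?_, ?_⟩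
  · have h1 : (z0 : ℝ) * (L / 2) ≤ 2 * R := by
      calc (z0 : ℝ) * (L / 2) ≤ z0 * Z.card := mul_le_mul_of_nonneg_left hZc (by positivity)
        _ ≤ 2 * R := by exact_mod_cast g2
    have h2 : (R : ℝ) = L * (R : ℝ) ^ t := by
      rw [hL, ← Real.rpow_add hRpos]; simp
    have h3 : (z0 : ℝ) * L ≤ 4 * (R : ℝ) ^ t * L := by
      calc (z0 : ℝ) * L ≤ 4 * R := by linarith
        _ = 4 * (R : ℝ) ^ t * L := by rw [mul_assoc, mul_comm ((R : ℝ) ^ t) L, ← h2]
    exact le_of_mul_le_mul_right h3 hLpos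
  · have h1 : |(k * q * α) * z0 - a0| * (L / 2) ≤ 2 * θ := by
      calc |(k * q * α) * z0 - a0| * (L / 2) ≤ |(k * q * α) * z0 - a0| * Z.card :=
            mul_le_mul_of_nonneg_left hZc (abs_nonneg _)
        _ ≤ 2 * θ := g3
    have h2 : θ = (R : ℝ) ^ (-(k : ℝ) + s + t) * L := by
      rw [hθ, hL, ← Real.rpow_add hRpos]
      congr 1; ring
    have h3 : |(k * q * α) * z0 - a0| * L ≤ 4 * (R : ℝ) ^ (-(k : ℝ) + s + t) * L := by
      calc |(k * q * α) * z0 - a0| * L ≤ 4 * θ := by linarith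
        _ = 4 * (R : ℝ) ^ (-(k : ℝ) + s + t) * L := by rw [h2]; ring
    exact le_of_mul_le_mul_right h3 hLpos

theorem thm : G_ME := by
  classical
  intro k s hk hs0 hs
  refine ⟨max 64 ((100 : ℝ) ^ k), ?_⟩
  intro R t hR ht0 ht1
  have hRpos : (0 : ℝ) < R := by exact_mod_cast hR
  have hR1 : (1 : ℝ) ≤ R := by exact_mod_cast hR
  have hkpos : (0 : ℝ) < k := by
    have : 0 < k := by omega
    exact_mod_cast this
  by_cases hbig : R < 100
  · have h1 : volume (Set.Icc (0 : ℝ) 1 ∩ {α | rich k R s t α}) ≤ 1 := by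
      calc volume (Set.Icc (0 : ℝ) 1 ∩ {α | rich k R s t α}) ≤ volume (Set.Icc (0 : ℝ) 1) :=
            measure_mono Set.inter_subset_left
        _ = 1 := by rw [Real.volume_Icc]; simp
    refine h1.trans ?_
    rw [← ENNReal.ofReal_one]
    apply ENNReal.ofReal_le_ofReal
    have h2 : (R : ℝ) ^ (-(k : ℝ)) ≤ (R : ℝ) ^ (-(k : ℝ) + 2 * t + 2 * s) :=
      Real.rpow_le_rpow_of_exponent_le hR1 (by linarith)
    have h3 : 1 ≤ (100 : ℝ) ^ k * (R : ℝ) ^ (-(k : ℝ)) := by
      rw [Real.rpow_neg hRpos.le, Real.rpow_natCast, ← div_eq_mul_inv, one_le_div (by positivity)]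
      apply pow_le_pow_left₀ hRpos.le
      exact_mod_cast hbig.le
    calc (1 : ℝ) ≤ (100 : ℝ) ^ k * (R : ℝ) ^ (-(k : ℝ)) := h3
      _ ≤ max 64 ((100 : ℝ) ^ k) * (R : ℝ) ^ (-(k : ℝ) + 2 * t + 2 * s) := by
        apply mul_le_mul (le_max_right _ _) h2 (by positivity) (by positivity)
  · have hbig' : 100 ≤ R := by omega
    set Q : ℕ := ⌊(R : ℝ) ^ s⌋₊ with hQ
    set M : ℕ := ⌊4 * (R : ℝ) ^ t⌋₊ with hM
    set ε : ℝ := 4 * (R : ℝ) ^ (-(k : ℝ) + s + t) with hε
    have hεpos : 0 < ε := by positivity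
    have hε1 : ε < 1 := by
      have h1 : (R : ℝ) ^ (-(k : ℝ) + s + t) ≤ (R : ℝ) ^ (-1 : ℝ) := by
        apply Real.rpow_le_rpow_of_exponent_le hR1
        have : (3 : ℝ) ≤ k := by exact_mod_cast hk
        linarith
      rw [Real.rpow_neg hRpos.le, Real.rpow_one] at h1
      have h2 : ((R : ℝ))⁻¹ ≤ 1 / 100 := by
        rw [inv_eq_one_div]
        apply one_div_le_one_div_of_le (by norm_num)
        exact_mod_cast hbig'
      rw [hε]; linarith
    have hsub : Set.Icc (0 : ℝ) 1 ∩ {α | rich k R s t α} ⊆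
        ⋃ q ∈ Finset.Icc 1 Q, ⋃ z ∈ Finset.Icc 1 M, ⋃ a ∈ Finset.Icc 0 (k * q * z),
          Set.Icc (((a : ℕ) : ℝ) / (k * q * z) - ε / (k * q * z))
            ((a : ℝ) / (k * q * z) + ε / (k * q * z)) := by
      rintro α ⟨⟨hα0, hα1⟩, hα⟩
      obtain ⟨q, z, a, g1, g2, g3, g4, g5⟩ :=
        rich_approx k R s t α hk hs0 hs hbig' ht0 ht1 hα
      have hqpos : (0 : ℝ) < q := by exact_mod_cast g1
      have hzpos : (0 : ℝ) < z := by exact_mod_cast g3
      have hw : (0 : ℝ) < k * q * z := by positivity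
      have habs := abs_le.1 g5
      have hlow : -1 < a := by
        have : (-1 : ℝ) < a := by
          have h1 : 0 ≤ k * q * α * z := by positivity
          linarith [habs.2]
        exact_mod_cast this
      have hup : a < (k * q * z : ℕ) + 1 := by
        have : (a : ℝ) < ((k * q * z : ℕ) : ℝ) + 1 := by
          push_cast
          have h1 : k * q * α * z ≤ k * q * z := by
            have : (k : ℝ) * q * α * z = k * q * z * α := by ring
            rw [this]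
            exact mul_le_of_le_one_right hw.le hα1
          linarith [habs.1]
        exact_mod_cast this
      simp only [Set.mem_iUnion, Finset.mem_Icc, exists_prop]
      refine ⟨q, ⟨g1, Nat.le_floor g2⟩, z, ⟨g3, Nat.le_floor g4⟩, a.toNat, ⟨Nat.zero_le _, ?_⟩, ?_⟩
      · omega
      · have ea : ((a.toNat : ℕ) : ℝ) = a := by
          have : ((a.toNat : ℕ) : ℤ) = a := Int.toNat_of_nonneg (by omega)
          exact_mod_cast this
        rw [ea, Set.mem_Icc, ← sub_div, ← add_div, div_le_iff₀ hw, le_div_iff₀ hw]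
        have e : α * (k * q * z) = k * q * α * z := by ring
        rw [e]
        constructor
        · linarith [habs.1]
        · linarith [habs.2]
    have hvol : ∀ q ∈ Finset.Icc 1 Q, ∀ z ∈ Finset.Icc 1 M,
        volume (⋃ a ∈ Finset.Icc 0 (k * q * z),
          Set.Icc (((a : ℕ) : ℝ) / (k * q * z) - ε / (k * q * z))
            ((a : ℝ) / (k * q * z) + ε / (k * q * z))) ≤ ENNReal.ofReal (4 * ε) := by
      intro q hq z hz
      have hqpos : (0 : ℝ) < q := by exact_mod_cast (Finset.mem_Icc.1 hq).1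
      have hzpos : (0 : ℝ) < z := by exact_mod_cast (Finset.mem_Icc.1 hz).1
      have hw : (0 : ℝ) < k * q * z := by positivity
      refine (measure_biUnion_finset_le _ _).trans ?_
      have : ∀ a ∈ Finset.Icc 0 (k * q * z), volume (Set.Icc (((a : ℕ) : ℝ) / (k * q * z) -
          ε / (k * q * z)) ((a : ℝ) / (k * q * z) + ε / (k * q * z))) =
          ENNReal.ofReal (2 * ε / (k * q * z)) := by
        intro a _
        rw [Real.volume_Icc]
        congr 1; ring
      rw [Finset.sum_congr rfl this, Finset.sum_const, Nat.card_Icc, nsmul_eq_mul]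
      rw [show (((k * q * z + 1 - 0 : ℕ) : ℕ) : ℝ≥0∞) =
        ENNReal.ofReal ((k * q * z + 1 - 0 : ℕ) : ℝ) by
          rw [ENNReal.ofReal_natCast]]
      rw [← ENNReal.ofReal_mul (by positivity)]
      apply ENNReal.ofReal_le_ofReal
      have hw1 : (1 : ℝ) ≤ k * q * z := by
        have h1 : 1 ≤ k * q * z := by
          have a1 := (Finset.mem_Icc.1 hq).1
          have a2 := (Finset.mem_Icc.1 hz).1
          have a3 : 1 ≤ k := by omega
          exact Nat.mul_pos (Nat.mul_pos a3 a1) a2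
        exact_mod_cast h1
      have e : ((k * q * z + 1 - 0 : ℕ) : ℝ) = k * q * z + 1 := by
        rw [Nat.sub_zero]; push_cast; ring
      rw [e, mul_div_assoc', div_le_iff₀ hw]
      nlinarith
    calc volume (Set.Icc (0 : ℝ) 1 ∩ {α | rich k R s t α})
        ≤ volume (⋃ q ∈ Finset.Icc 1 Q, ⋃ z ∈ Finset.Icc 1 M, ⋃ a ∈ Finset.Icc 0 (k * q * z),
          Set.Icc (((a : ℕ) : ℝ) / (k * q * z) - ε / (k * q * z))
            ((a : ℝ) / (k * q * z) + ε / (k * q * z))) := measure_mono hsub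
      _ ≤ ∑ q ∈ Finset.Icc 1 Q, volume (⋃ z ∈ Finset.Icc 1 M, ⋃ a ∈ Finset.Icc 0 (k * q * z),
          Set.Icc (((a : ℕ) : ℝ) / (k * q * z) - ε / (k * q * z))
            ((a : ℝ) / (k * q * z) + ε / (k * q * z))) := measure_biUnion_finset_le _ _
      _ ≤ ∑ q ∈ Finset.Icc 1 Q, ∑ z ∈ Finset.Icc 1 M, ENNReal.ofReal (4 * ε) := by
        refine Finset.sum_le_sum fun q hq => (measure_biUnion_finset_le _ _).trans ?_
        exact Finset.sum_le_sum fun z hz => hvol q hq z hz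
      _ = ENNReal.ofReal (Q * (M * (4 * ε))) := by
        rw [Finset.sum_const, Finset.sum_const, Nat.card_Icc, Nat.card_Icc, nsmul_eq_mul,
          nsmul_eq_mul, Nat.add_sub_cancel, Nat.add_sub_cancel,
          ENNReal.ofReal_mul (p := (Q : ℝ)) (by positivity),
          ENNReal.ofReal_mul (p := (M : ℝ)) (by positivity),
          ENNReal.ofReal_natCast, ENNReal.ofReal_natCast]
      _ ≤ ENNReal.ofReal (max 64 ((100 : ℝ) ^ k) * (R : ℝ) ^ (-(k : ℝ) + 2 * t + 2 * s)) := by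
        apply ENNReal.ofReal_le_ofReal
        have h1 : (Q : ℝ) ≤ (R : ℝ) ^ s := Nat.floor_le (by positivity)
        have h2 : (M : ℝ) ≤ 4 * (R : ℝ) ^ t := Nat.floor_le (by positivity)
        have h3 : (R : ℝ) ^ (-(k : ℝ) + 2 * t + 2 * s) =
            (R : ℝ) ^ s * ((R : ℝ) ^ t * (R : ℝ) ^ (-(k : ℝ) + s + t)) := by
          rw [← Real.rpow_add hRpos, ← Real.rpow_add hRpos]
          congr 1; ring
        calc (Q : ℝ) * (M * (4 * ε)) ≤ (R : ℝ) ^ s * ((4 * (R : ℝ) ^ t) * (4 * ε)) := by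
              apply mul_le_mul h1 _ (by positivity) (by positivity)
              exact mul_le_mul_of_nonneg_right h2 (by positivity)
          _ = 64 * (R : ℝ) ^ (-(k : ℝ) + 2 * t + 2 * s) := by
              rw [h3, hε]; ring
          _ ≤ max 64 ((100 : ℝ) ^ k) * (R : ℝ) ^ (-(k : ℝ) + 2 * t + 2 * s) :=
              mul_le_mul_of_nonneg_right (le_max_left _ _) (by positivity)

end Pool.Agent.Helper42.KS.PkME
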